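import Pool.Agent.H68.SF.LT

/-! The chain lemma: elementary levels. -/

open Ordinal Cardinal Order Set
open scoped ZFSet

namespace SF

private theorem lch_countable_fml : Countable Fml := by
  let enc : Fml → ℕ := fun φ => Fml.rec (motive := fun _ => ℕ) (fun i j => 6 * Nat.pair i j)
    (fun i j => 6 * Nat.pair i j + 1) (fun i => 6 * i + 2) (fun _ n => 6 * n + 3)
    (fun _ _ n m => 6 * Nat.pair n m + 4) (fun _ n => 6 * n + 5) φ
  refine ⟨enc, ?_⟩
  have key : ∀ φ ψ : Fml, enc φ = enc ψ → φ = ψ := by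
    intro φ
    induction φ with
    | mem i j =>
      intro ψ h
      cases ψ <;> simp only [enc] at h <;> try omega
      have h2 := Nat.pair_eq_pair.1 (Nat.eq_of_mul_eq_mul_left (by norm_num) h)
      rw [h2.1, h2.2]
    | eq i j =>
      intro ψ h
      cases ψ <;> simp only [enc] at h <;> try omega
      have h2 := Nat.pair_eq_pair.1
        (Nat.eq_of_mul_eq_mul_left (by norm_num) (Nat.add_right_cancel h))
      rw [h2.1, h2.2]
    | prd i =>
      intro ψ h
      cases ψ <;> simp only [enc] at h <;> try omega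
      have h2 := Nat.eq_of_mul_eq_mul_left (by norm_num) (Nat.add_right_cancel h)
      rw [h2]
    | neg φ ih =>
      intro ψ h
      cases ψ <;> simp only [enc] at h <;> try omega
      have h2 := Nat.eq_of_mul_eq_mul_left (by norm_num) (Nat.add_right_cancel h)
      rw [ih _ h2]
    | and φ ψ ih1 ih2 =>
      intro χ h
      cases χ <;> simp only [enc] at h <;> try omega
      have h2 := Nat.pair_eq_pair.1
        (Nat.eq_of_mul_eq_mul_left (by norm_num) (Nat.add_right_cancel h))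
      rw [ih1 _ h2.1, ih2 _ h2.2]
    | ex φ ih =>
      intro ψ h
      cases ψ <;> simp only [enc] at h <;> try omega
      have h2 := Nat.eq_of_mul_eq_mul_left (by norm_num) (Nat.add_right_cancel h)
      rw [ih _ h2]
  exact fun φ ψ h => key φ ψ h

/-- one step of the closure -/
private theorem lch_step (hLCA : T_LCA) (κ : Cardinal.{0}) (hκ : κ.IsRegular) (hκ0 : ℵ₀ < κ)
    (a A : V) (hac : a.card < κ) (d : Ordinal.{0}) (hd : d < κ.ord) :
    ∃ e, d < e ∧ e < κ.ord ∧ ∀ (φ : Fml) (l : List V) (w : V), (∀ p ∈ l, p ∈ Lh a A d) →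
      w ∈ Lh a A d →
      (∃ y ∈ Lh a A κ.ord, SatP (· ∈ Lh a A κ.ord) (· ∈ A) φ (cons y fun i => l.getD i w)) →
      ∃ y ∈ Lh a A e, SatP (· ∈ Lh a A κ.ord) (· ∈ A) φ (cons y fun i => l.getD i w) := by
  have hlim : IsSuccLimit κ.ord := Cardinal.isSuccLimit_ord hκ.aleph0_le
  have := lch_countable_fml
  let S : Type := Shrink.{0} {p : V // p ∈ Lh a A d}
  let g : S → V := fun s => ((equivShrink {p : V // p ∈ Lh a A d}).symm s).1
  have hg : ∀ p, p ∈ Lh a A d → ∃ s, g s = p := fun p hp =>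
    ⟨equivShrink _ ⟨p, hp⟩, by simp [g]⟩
  let J : Type := Fml × List S × S
  have hS : #S < κ := by
    have h1 : #S = (Lh a A d).card := rfl
    rw [h1]
    exact lt_of_le_of_lt (hLCA a A d) (max_lt (max_lt hκ0 hac) (Cardinal.lt_ord.1 hd))
  have hJ : #J < κ := by
    have h1 : #Fml < κ := lt_of_le_of_lt mk_le_aleph0 hκ0
    have h2 : #(List S) < κ := lt_of_le_of_lt (mk_list_le_max S) (max_lt hκ0 hS)
    have h3 : #J = #Fml * (#(List S) * #S) := by
      simp [J, mk_prod]
    rw [h3]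
    exact mul_lt_of_lt hκ.aleph0_le h1 (mul_lt_of_lt hκ.aleph0_le h2 hS)
  have hw : ∀ j : J, ∃ e < κ.ord,
      (∃ y ∈ Lh a A κ.ord, SatP (· ∈ Lh a A κ.ord) (· ∈ A) j.1
        (cons y fun i => (j.2.1.map g).getD i (g j.2.2))) →
      ∃ y ∈ Lh a A e, SatP (· ∈ Lh a A κ.ord) (· ∈ A) j.1
        (cons y fun i => (j.2.1.map g).getD i (g j.2.2)) := by
    intro j
    by_cases h : ∃ y ∈ Lh a A κ.ord, SatP (· ∈ Lh a A κ.ord) (· ∈ A) j.1
        (cons y fun i => (j.2.1.map g).getD i (g j.2.2))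
    · obtain ⟨y, hy, hs⟩ := h
      obtain ⟨e, he, hye⟩ := (mem_Lh_limit hlim).1 hy
      exact ⟨e, he, fun _ => ⟨y, hye, hs⟩⟩
    · exact ⟨0, hlim.bot_lt, fun h' => absurd h' h⟩
  choose wit hwit1 hwit2 using hw
  have hsup : (⨆ j, wit j) < κ.ord := by
    refine Cardinal.iSup_lt_ord_of_isRegular hκ hJ hwit1
  refine ⟨max (Order.succ d) (⨆ j, wit j), lt_of_lt_of_le (Order.lt_succ d) (le_max_left _ _),
    max_lt (hlim.succ_lt hd) hsup, ?_⟩
  intro φ l w hl hw h
  obtain ⟨w', rfl⟩ := hg w hw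
  obtain ⟨l', rfl⟩ : ∃ l' : List S, l'.map g = l := by
    have h1 : ∀ l : List V, (∀ p ∈ l, p ∈ Lh a A d) → ∃ l' : List S, l'.map g = l := by
      intro l
      induction l with
      | nil => exact fun _ => ⟨[], rfl⟩
      | cons p l ih =>
        intro h
        obtain ⟨l', hl'⟩ := ih fun q hq => h q (List.mem_cons_of_mem _ hq)
        obtain ⟨s, hs⟩ := hg p (h p List.mem_cons_self)
        exact ⟨s :: l', by rw [List.map_cons, hl', hs]⟩
    exact h1 l hl
  obtain ⟨y, hy, hs⟩ := hwit2 (φ, l', w') h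
  refine ⟨y, Lh_mono (le_trans ?_ (le_max_right _ _)) hy, hs⟩
  exact Ordinal.le_iSup wit (φ, l', w')

theorem pf_LCH (hLCA : T_LCA) : T_LCH := by
  intro κ hκ hκ0 a A _ hac δ hδ
  have hlim : IsSuccLimit κ.ord := Cardinal.isSuccLimit_ord hκ.aleph0_le
  have hstep := lch_step hLCA κ hκ hκ0 a A hac
  choose! s hs1 hs2 hs3 using hstep
  let d : ℕ → Ordinal.{0} := fun n => s^[n] (Order.succ δ)
  have hd0 : d 0 = Order.succ δ := rfl
  have hds : ∀ n, d (n + 1) = s (d n) := fun n => Function.iterate_succ_apply' s n _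
  have hdk : ∀ n, d n < κ.ord := by
    intro n
    induction n with
    | zero => exact hlim.succ_lt hδ
    | succ n ih =>
      rw [hds]
      exact hs2 _ ih
  have hdlt : ∀ n, d n < d (n + 1) := fun n => by
    rw [hds]
    exact hs1 _ (hdk n)
  have hmono : StrictMono d := strictMono_nat_of_lt_succ hdlt
  set D : Ordinal.{0} := ⨆ n, d n with hD
  have hdD : ∀ n, d n < D := fun n => lt_of_lt_of_le (hdlt n) (Ordinal.le_iSup d (n + 1))
  have hDk : D < κ.ord := by
    refine Cardinal.iSup_lt_ord_of_isRegular hκ ?_ hdk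
    rw [mk_nat]
    exact hκ0
  have hbD : ∀ b, b < D → ∃ n, b < d n := fun b hb => Ordinal.lt_iSup_iff.1 hb
  have hDlim : IsSuccLimit D := by
    refine ⟨?_, ?_⟩
    · intro h
      have h1 := h (hdD 0).le
      exact absurd (hdD 0) (not_lt.2 h1)
    · intro b hb
      obtain ⟨n, hn⟩ := hbD b hb.lt
      exact hb.2 hn (hdD n)
  have hmem : ∀ x, x ∈ Lh a A D → ∃ n, x ∈ Lh a A (d n) := by
    intro x hx
    obtain ⟨b, hb, hx⟩ := (mem_Lh_limit hDlim).1 hx
    obtain ⟨n, hn⟩ := hbD b hb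
    exact ⟨n, Lh_mono hn.le hx⟩
  refine ⟨D, lt_of_lt_of_le (by rw [hd0]; exact Order.lt_succ δ) (hdD 0).le, hDk, ?_⟩
  intro φ
  induction φ with
  | mem i j => exact fun v _ => Iff.rfl
  | eq i j => exact fun v _ => Iff.rfl
  | prd i => exact fun v _ => Iff.rfl
  | neg φ ih => exact fun v hv => not_congr (ih v hv)
  | and φ ψ ih1 ih2 => exact fun v hv => and_congr (ih1 v hv) (ih2 v hv)
  | ex φ ih =>
    intro v hv
    simp only [SatP]
    constructor
    · rintro ⟨x, hx, hs⟩
      exact ⟨x, Lh_mono hDk.le hx, (ih _ (In.cons hv hx)).1 hs⟩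
    · rintro ⟨x, hx, hs⟩
      -- finitely many values are in one level
      have hfin : ∀ m : ℕ, ∃ n, ∀ i < m, v i ∈ Lh a A (d n) := by
        intro m
        induction m with
        | zero => exact ⟨0, fun i hi => absurd hi (Nat.not_lt_zero i)⟩
        | succ m ihm =>
          obtain ⟨n, hn⟩ := ihm
          obtain ⟨n', hn'⟩ := hmem _ (hv m)
          refine ⟨max n n', fun i hi => ?_⟩
          rcases (Nat.lt_succ_iff.1 hi).eq_or_lt with h | h
          · rw [h]
            exact Lh_mono (hmono.monotone (le_max_right _ _)) hn'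
          · exact Lh_mono (hmono.monotone (le_max_left _ _)) (hn i h)
      obtain ⟨n, hn⟩ := hfin (φ.bd + 1)
      have hc : ∀ y, SatP (· ∈ Lh a A κ.ord) (· ∈ A) φ
          (cons y fun i => ((List.range φ.bd).map v).getD i (v 0)) ↔
          SatP (· ∈ Lh a A κ.ord) (· ∈ A) φ (cons y v) := by
        intro y
        refine satP_congr _ _ _ _ _ fun i hi => ?_
        cases i with
        | zero => rfl
        | succ k =>
          show ((List.range φ.bd).map v).getD k (v 0) = v k
          rw [List.getD_eq_getElem _ _ (by simp; omega)]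
          simp
      obtain ⟨y, hy, hsy⟩ := hs3 (d n) (hdk n) φ ((List.range φ.bd).map v) (v 0)
        (by
          intro p hp
          obtain ⟨i, hi, rfl⟩ := List.mem_map.1 hp
          exact hn i (Nat.lt_succ_of_lt (List.mem_range.1 hi)))
        (hn 0 (Nat.succ_pos _)) ⟨x, hx, (hc x).2 hs⟩
      have hyD : y ∈ Lh a A D := by
        rw [← hds] at hy
        exact Lh_mono (hdD (n + 1)).le hy
      exact ⟨y, hyD, (ih _ (In.cons hv hyD)).2 ((hc y).1 hsy)⟩

end SF
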