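import Pool.Agent.H3.SF.Tg2

/-!
# MP_70ba79_ag, THEOREM S, row VLD: values of derivatives
-/

set_option autoImplicit false

namespace Pool.Agent.H42.SF

open MvPolynomial SC Pool.Agent.H27.LV
open Pool.Agent.H84.SM (dp cr dt)
open Pool.Agent.H92.SF Pool.Agent.H3.SF

theorem pf_VLD (hVLA : T_VLA) (hSF1 : T_SF1) : T_VLD := by
  intro k F K _ _ _ _ _ _ _ u dd δ j0 c0 J hS φ x hx hJx
  obtain ⟨hd, hiu, hip, hdp, hie, hhd, hfr⟩ := hSF1 k F u dd δ j0 c0 J hS
  obtain ⟨hun, hsp, hin, hval, hcon⟩ := hVLA k F K u φ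
  -- the coordinates as elements of the ring
  let ul : Fin 3 → Bb k u := fun i => ⟨u i, hiu i⟩
  have hul : ∀ i, (ul i : F) = u i := fun i => rfl
  have hφu : ∀ i, φ (ul i) = x i := fun i => hx i (ul i) rfl
  have haev : ∀ p : MvPolynomial (Fin 3) k, ((aeval ul p : Bb k u) : F) = aeval u p := by
    intro p
    have h := MvPolynomial.aeval_algebraMap_apply (R := k) (A := Bb k u) (B := F) ul p
    exact h.symm
  have hφaev : ∀ p : MvPolynomial (Fin 3) k, φ (aeval ul p) = aeval x p := by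
    intro p
    rw [MvPolynomial.comp_aeval_apply]
    congr 2
    funext i
    exact hφu i
  have hJ : Vl u φ (aeval u J) (aeval x J) := by
    have h := hval (aeval ul J)
    rwa [haev, hφaev] at h
  refine ⟨hJ, ?_⟩
  rintro a b ⟨h, c, hh, hac, hbc⟩
  set J' : K := aeval x J with hJ'
  let jj : Bb k u := aeval ul J
  have hjj : (jj : F) = aeval u J := haev J
  have hφjj : φ jj = J' := hφaev J
  let dl : Bb k u → Fin 3 → Bb k u := fun c l => ⟨aeval u J * dd l c, hS.Jd l c c.2⟩
  have hdl : ∀ c l, (dl c l : F) = aeval u J * dd l c := fun c l => rfl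
  have hch : ∀ (c : Bb k u) (D : Derivation k K K),
      J' * D (φ c) = ∑ l, φ (dl c l) * D (x l) := by
    intro c D
    have h1 := hS.chr K φ D c jj (dl c) ul hjj (fun l => rfl) hul (by rw [hφjj]; exact hJx)
    rw [hφjj] at h1
    rw [h1]
    refine Finset.sum_congr rfl fun l _ => ?_
    rw [hφu]
  have hne : φ h ^ 2 * J' ≠ 0 := mul_ne_zero (pow_ne_zero _ hh) hJx
  refine ⟨fun l => (φ h * φ (dl c l) - φ c * φ (dl h l)) / (φ h ^ 2 * J'), fun l => ?_,
    fun D => ?_⟩
  · refine ⟨h ^ 2 * jj, h * dl c l - c * dl h l, ?_, ?_, ?_⟩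
    · rw [map_mul, map_pow, hφjj]
      exact hne
    · have h1 : dd l ((h : F) * a) = dd l (c : F) := by rw [hac]
      rw [Derivation.leibniz, smul_eq_mul, smul_eq_mul] at h1
      have e1 : ((h ^ 2 * jj : Bb k u) : F) = (h : F) ^ 2 * aeval u J := by
        rw [← hjj]; rfl
      have e2 : ((h * dl c l - c * dl h l : Bb k u) : F) =
          (h : F) * (aeval u J * dd l c) - (c : F) * (aeval u J * dd l h) := rfl
      rw [e1, e2, ← h1, ← hac]
      ring
    · rw [map_mul, map_pow, hφjj, map_sub, map_mul, map_mul]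
      field_simp
  · have h1 : D (φ h * b) = D (φ c) := by rw [hbc]
    rw [Derivation.leibniz, smul_eq_mul, smul_eq_mul] at h1
    have h2 := hch c D
    have h3 := hch h D
    have key : (φ h ^ 2 * J') * D b =
        ∑ l, (φ h * φ (dl c l) - φ c * φ (dl h l)) * D (x l) := by
      have e1 : ∑ l, (φ h * φ (dl c l) - φ c * φ (dl h l)) * D (x l) =
          φ h * ∑ l, φ (dl c l) * D (x l) - φ c * ∑ l, φ (dl h l) * D (x l) := by
        rw [Finset.mul_sum, Finset.mul_sum, ← Finset.sum_sub_distrib]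
        refine Finset.sum_congr rfl fun l _ => ?_
        ring
      rw [e1, ← h2, ← h3, ← h1, ← hbc]
      ring
    have e2 : ∑ l, (φ h * φ (dl c l) - φ c * φ (dl h l)) / (φ h ^ 2 * J') * D (x l) =
        (∑ l, (φ h * φ (dl c l) - φ c * φ (dl h l)) * D (x l)) / (φ h ^ 2 * J') := by
      rw [Finset.sum_div]
      refine Finset.sum_congr rfl fun l _ => ?_
      ring
    rw [e2, ← key, mul_div_cancel_left₀ _ hne]

end Pool.Agent.H42.SF
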