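import Pool.Agent.H3.SF.Tg2

/-!
# MP_70ba79_ag, THEOREM S, row VLQ: values of polynomials
-/

set_option autoImplicit false

namespace Pool.Agent.H42.SF

open MvPolynomial SC Pool.Agent.H27.LV
open Pool.Agent.H84.SM (dp cr dt)
open Pool.Agent.H92.SF Pool.Agent.H3.SF

theorem pf_VLQ (hVLA : T_VLA) : T_VLQ := by
  intro k F K _ _ _ _ _ u φ
  obtain ⟨hun, hsp, hin, hval, hcon⟩ := hVLA k F K u φ
  have h0 : Vl u φ (0 : F) (0 : K) := by
    have := hcon 0
    rwa [map_zero, map_zero] at this
  have h1 : Vl u φ (1 : F) (1 : K) := by
    have := hcon 1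
    rwa [map_one, map_one] at this
  have hnat : ∀ n : ℕ, Vl u φ (n : F) (n : K) := by
    intro n
    induction n with
    | zero => simpa using h0
    | succ n ih =>
      have := (hsp _ _ _ _ ih h1).1
      push_cast
      exact this
  have hsum : ∀ (ι : Type) (s : Finset ι) (f : ι → F) (g : ι → K),
      (∀ i ∈ s, Vl u φ (f i) (g i)) → Vl u φ (∑ i ∈ s, f i) (∑ i ∈ s, g i) := by
    intro ι s f g
    classical
    induction s using Finset.induction_on with
    | empty => intro _; simpa using h0
    | insert i s hi ih =>
      intro h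
      rw [Finset.sum_insert hi, Finset.sum_insert hi]
      exact (hsp _ _ _ _ (h i (Finset.mem_insert_self _ _))
        (ih fun j hj => h j (Finset.mem_insert_of_mem hj))).1
  have hadd : ∀ V V' W W', VQ u φ V W → VQ u φ V' W' → VQ u φ (V + V') (W + W') := by
    intro V V' W W' h h' j a
    rw [Polynomial.coeff_add, Polynomial.coeff_add, coeff_add, coeff_add]
    exact (hsp _ _ _ _ (h j a) (h' j a)).1
  have hmul : ∀ V V' W W', VQ u φ V W → VQ u φ V' W' → VQ u φ (V * V') (W * W') := by
    intro V V' W W' h h' j a
    rw [Polynomial.coeff_mul, Polynomial.coeff_mul, coeff_sum, coeff_sum]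
    refine hsum _ _ _ _ fun p _ => ?_
    rw [coeff_mul, coeff_mul]
    refine hsum _ _ _ _ fun q _ => ?_
    exact (hsp _ _ _ _ (h p.1 q.1) (h' p.2 q.2)).2
  have hcq : ∀ a b, Vl u φ a b → VQ u φ (cq a) (cq b) := by
    intro a b h j c
    have e1 : (cq a : Q2 F) = Polynomial.C (C a) := rfl
    have e2 : (cq b : Q2 K) = Polynomial.C (C b) := rfl
    rw [e1, e2, Polynomial.coeff_C, Polynomial.coeff_C]
    by_cases hj : j = 0
    · rw [if_pos hj, if_pos hj, coeff_C, coeff_C]
      by_cases hc : 0 = c
      · rw [if_pos hc, if_pos hc]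
        exact h
      · rw [if_neg hc, if_neg hc]
        exact h0
    · rw [if_neg hj, if_neg hj, coeff_zero, coeff_zero]
      exact h0
  refine ⟨?_, fun V V' W W' h h' => ⟨hadd V V' W W' h h', hmul V V' W W' h h'⟩, ?_, ?_, hcq,
    ?_, ?_⟩
  · intro V W W' h h'
    ext j a
    exact hun _ _ _ (h j a) (h' j a)
  · intro r V W h
    induction r with
    | zero =>
      rw [pow_zero, pow_zero]
      have := hcq 1 1 h1
      rwa [map_one, map_one] at this
    | succ r ih =>
      rw [pow_succ, pow_succ]
      exact hmul _ _ _ _ ih h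
  · intro V W h j a
    rw [Polynomial.coeff_derivative, Polynomial.coeff_derivative]
    have e : ∀ (L : Type) [Field L] (p : MvPolynomial (Fin 2) L),
        (p * ((j : MvPolynomial (Fin 2) L) + 1)).coeff a = p.coeff a * ((j + 1 : ℕ) : L) := by
      intro L _ p
      have : ((j : MvPolynomial (Fin 2) L) + 1) = C ((j + 1 : ℕ) : L) := by
        rw [map_natCast]
        push_cast
        rfl
      rw [this, mul_comm, coeff_C_mul, mul_comm]
    rw [e, e]
    exact (hsp _ _ _ _ (h (j + 1) a) (hnat (j + 1))).2
  · intro j a
    rw [Polynomial.coeff_X, Polynomial.coeff_X]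
    by_cases hj : 1 = j
    · rw [if_pos hj, if_pos hj, coeff_one, coeff_one]
      by_cases hc : 0 = a
      · rw [if_pos hc, if_pos hc]
        exact h1
      · rw [if_neg hc, if_neg hc]
        exact h0
    · rw [if_neg hj, if_neg hj, coeff_zero, coeff_zero]
      exact h0
  · intro V hV
    classical
    choose f hf using hV
    have hf0 : ∀ j a, (V.coeff j).coeff a = 0 → f j a = 0 := by
      intro j a h
      have := hf j a
      rw [h] at this
      exact hun _ _ _ this h0
    refine ⟨∑ j ∈ V.support, Polynomial.monomial j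
      (∑ a ∈ (V.coeff j).support, monomial a (f j a)), fun j a => ?_⟩
    have e1 : (∑ j ∈ V.support, Polynomial.monomial j
        (∑ a ∈ (V.coeff j).support, monomial a (f j a))).coeff j =
        ∑ a ∈ (V.coeff j).support, monomial a (f j a) := by
      rw [Polynomial.finsetSum_coeff]
      by_cases hj : j ∈ V.support
      · rw [Finset.sum_eq_single_of_mem j hj]
        · rw [Polynomial.coeff_monomial, if_pos rfl]
        · intro i _ hi
          rw [Polynomial.coeff_monomial, if_neg hi]
      · rw [Finset.sum_eq_zero]
        · rw [Polynomial.notMem_support_iff] at hj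
          rw [hj]
          simp
        · intro i hi
          rw [Polynomial.coeff_monomial, if_neg]
          rintro rfl
          exact hj hi
    have e2 : (∑ a ∈ (V.coeff j).support, monomial a (f j a) :
        MvPolynomial (Fin 2) K).coeff a = f j a := by
      rw [coeff_sum]
      by_cases ha : a ∈ (V.coeff j).support
      · rw [Finset.sum_eq_single_of_mem a ha]
        · rw [coeff_monomial, if_pos rfl]
        · intro i _ hi
          rw [coeff_monomial, if_neg hi]
      · rw [Finset.sum_eq_zero]
        · rw [MvPolynomial.notMem_support_iff] at ha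
          rw [hf0 j a ha]
        · intro i hi
          rw [coeff_monomial, if_neg]
          rintro rfl
          exact ha hi
    rw [e1, e2]
    exact hf j a

end Pool.Agent.H42.SF
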