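import Pool.Agent.H3.SF.Targets
import Pool.Agent.H14.SQ.ORD

/-!
# Row FPB of the board `spw_modules`: the primes of period dividing `P`
-/

set_option autoImplicit false

namespace Pool.Agent.H42.SF

open Finset Filter Topology Pool.Agent.H3.SF Pool.Agent.H99.SQ

theorem mem_FP {P : ℕ} (hP : 0 < P) (p : ℕ) : p ∈ FP P ↔ OP p ∧ mm p ∣ P := by
  classical
  unfold FP
  rw [Finset.mem_filter, Finset.mem_range]
  constructor
  · exact fun h => h.2
  · intro h
    refine ⟨?_, h⟩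
    obtain ⟨h1, h2, -⟩ := Pool.Agent.H14.SQ.pf_ORD p h.1
    have h3 : mm p ≤ P := Nat.le_of_dvd hP h.2
    have h4 : (2 : ℕ) ^ mm p ≤ 2 ^ P := Nat.pow_le_pow_right (by norm_num) h3
    have h5 : p ≤ p ^ 2 := Nat.le_self_pow (by norm_num) p
    omega

theorem FP_coprime {P : ℕ} (hP : 0 < P) (p : ℕ) (hp : OP p) (h : ¬ mm p ∣ P) :
    Nat.Coprime (QQ (FP P)) (p ^ 2) := by
  unfold QQ
  refine Nat.Coprime.prod_left fun q hq => ?_
  have hq' := (mem_FP hP q).1 hq
  refine Nat.Coprime.pow 2 2 ?_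
  rw [Nat.coprime_primes hq'.1.1 hp.1]
  rintro rfl
  exact h hq'.2

theorem FP_dvd {P P' : ℕ} (hP : 0 < P) (hP' : 0 < P') (h : P ∣ P') : QQ (FP P) ∣ QQ (FP P') := by
  unfold QQ
  apply Finset.prod_dvd_prod_of_subset
  intro p hp
  rw [mem_FP hP] at hp
  rw [mem_FP hP']
  exact ⟨hp.1, hp.2.trans h⟩

theorem pf_FPB : T_FPB := by
  classical
  intro P hP
  have hmem := mem_FP hP
  refine ⟨hmem, ?_, ?_, ?_, FP_coprime hP, fun P' hP' h => FP_dvd hP hP' h, ?_⟩
  · exact Finset.prod_pos fun p hp => pow_pos ((hmem p).1 hp).1.1.pos 2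
  · have h1 : QQ (FP P) ∣ 2 ^ P - 1 := by
      unfold QQ
      apply Finset.prod_dvd_of_isRelPrime
      · intro p hp q hq hpq
        have hp' := (hmem p).1 hp
        have hq' := (hmem q).1 hq
        exact Nat.coprime_iff_isRelPrime.1
          (Nat.Coprime.pow 2 2 ((Nat.coprime_primes hp'.1.1 hq'.1.1).2 hpq))
      · intro p hp
        have hp' := (hmem p).1 hp
        rw [← Pool.Agent.H14.SQ.pow_eq_one_iffB]
        exact orderOf_dvd_iff_pow_eq_one.1 hp'.2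
    have h2 : 0 < 2 ^ P - 1 := by
      have : 2 ^ 1 ≤ 2 ^ P := Nat.pow_le_pow_right (by norm_num) hP
      omega
    have h3 := Nat.le_of_dvd h2 h1
    omega
  · intro p hp
    exact Finset.dvd_prod_of_mem (fun p => p ^ 2) hp
  · intro P' p hP' hPP hp hnd hd
    apply Nat.Coprime.mul_dvd_of_dvd_of_dvd (FP_coprime hP p hp hnd) (FP_dvd hP hP' hPP)
    exact Finset.dvd_prod_of_mem (fun p => p ^ 2) ((mem_FP hP' p).2 ⟨hp, hd⟩)

end Pool.Agent.H42.SF
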