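import Pool.Agent.H3.SF.Targets
import Pool.Agent.H14.SQ.ORD
import Pool.Agent.H14.SQ.SEM

/-!
# Row LO of the board `spw_modules`: the least exponent not killed
-/

set_option autoImplicit false

namespace Pool.Agent.H42.SF

open Finset Filter Topology Pool.Agent.H3.SF Pool.Agent.H99.SQ

theorem pf_LO (hFPB : T_FPB) : T_LO := by
  intro P n hP
  obtain ⟨hmem, -, -, hdv, -⟩ := hFPB P hP
  obtain ⟨-, hsem, -⟩ := Pool.Agent.H14.SQ.pf_SEM
  constructor
  · intro n' hnn
    unfold lo
    congr 1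
    ext l
    have key : ∀ p ∈ FP P, (Kill p n l ↔ Kill p n' l) := fun p hp =>
      hsem p n n' l (hnn.of_dvd (hdv p hp))
    constructor
    · intro h p hp hk
      exact h p hp ((key p hp).2 hk)
    · intro h p hp hk
      exact h p hp ((key p hp).1 hk)
  · intro hcov l hl p hp hk
    have hne : {l : ℕ | ∀ p ∈ FP P, ¬ Kill p n l}.Nonempty := by
      unfold Cov at hcov
      push Not at hcov
      exact hcov
    have h0 : ∀ p ∈ FP P, ¬ Kill p n (lo P n) := Nat.sInf_mem hne
    apply h0 p hp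
    have hp' := (hmem p).1 hp
    obtain ⟨-, -, -, h4, -⟩ := Pool.Agent.H14.SQ.pf_ORD p hp'.1
    have h5 : l ≡ lo P n [MOD mm p] := hl.of_dvd hp'.2
    have h6 := (h4 l (lo P n)).2 h5
    unfold Kill at hk ⊢
    rw [hk, h6]

end Pool.Agent.H42.SF
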