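import Pool.Agent.H77.SF.KT
import Pool.Agent.H58.SF.LLS

/-! Almost all sets are elementary submodels. -/

open Ordinal Cardinal Order Set Filter
open scoped ZFSet

namespace SF.H42

open SF

/-- the Tarski–Vaught test -/
theorem tarskiVaught {Y N : V} (hYN : Y ⊆ N)
    (h : ∀ φ : Fml, ∀ t : ℕ → V, (∀ i, t i ∈ Y) →
      (∃ x, x ∈ N ∧ Sat (· ∈ N) φ (cons x t)) → ∃ x, x ∈ Y ∧ Sat (· ∈ N) φ (cons x t)) :
    ElSub Y N := by
  refine ⟨hYN, fun φ => ?_⟩
  induction φ with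
  | mem i j => intro v _; exact Iff.rfl
  | eq i j => intro v _; exact Iff.rfl
  | prd i => intro v _; exact Iff.rfl
  | neg φ ih => intro v hv; exact not_congr (ih v hv)
  | and φ ψ ih1 ih2 => intro v hv; exact and_congr (ih1 v hv) (ih2 v hv)
  | ex φ ih =>
    intro v hv
    have hc : ∀ x, x ∈ Y → ∀ i, cons x v i ∈ Y := by
      intro x hx i
      cases i with
      | zero => exact hx
      | succ n => exact hv n
    constructor
    · rintro ⟨x, hx, hs⟩
      exact ⟨x, hYN hx, (ih (cons x v) (hc x hx)).1 hs⟩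
    · rintro ⟨x, hx, hs⟩
      obtain ⟨y, hy, hs'⟩ := h φ v hv ⟨x, hx, hs⟩
      exact ⟨y, hy, (ih (cons y v) (hc y hy)).2 hs'⟩

theorem ke (hKD : T_KD) : T_KE := by
  intro κ N W hκ hW hN
  have hF : #Fml < κ := lt_of_le_of_lt (Cardinal.mk_le_aleph0_iff.2 H58.countable_fml) hκ
  have h1 := hW.comp Fml (fun φ Y => ∀ t : ℕ → V, (∀ i, t i ∈ Y) →
      (∃ x, x ∈ N ∧ Sat (· ∈ N) φ (cons x t)) → ∃ x, x ∈ Y ∧ Sat (· ∈ N) φ (cons x t)) hF
      (fun φ => by
        refine hKD κ N W hκ hW (fun t Y => (∃ x, x ∈ N ∧ Sat (· ∈ N) φ (cons x t)) →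
          ∃ x, x ∈ Y ∧ Sat (· ∈ N) φ (cons x t)) ?_
        intro t _
        by_cases hx : ∃ x, x ∈ N ∧ Sat (· ∈ N) φ (cons x t)
        · obtain ⟨x, hx, hs⟩ := hx
          filter_upwards [hW.fine x hx] with Y hY _
          exact ⟨x, hY, hs⟩
        · exact Filter.Eventually.of_forall fun Y h => absurd h hx)
  filter_upwards [h1, hW.sub] with Y hY hYN
  exact tarskiVaught hYN hY

end SF.H42
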