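import Pool.Agent.H77.SF.KT

/-! Small elements are subsets. -/

open Ordinal Cardinal Order Set Filter
open scoped ZFSet

namespace SF.H42

open SF

theorem kf (hKD : T_KD) : T_KF := by
  intro κ N W hκ hW hN
  have h1 := hKD κ N W hκ hW (fun t Y => (t 0).card < κ → t 0 ⊆ Y) (by
    intro t ht
    by_cases hc : (t 0).card < κ
    · have h2 := hW.comp (Shrink.{0} (t 0)) (fun s Y => ((equivShrink (t 0)).symm s).1 ∈ Y)
        hc (fun s => hW.fine _ (hN.mem_trans ((equivShrink (t 0)).symm s).2 (ht 0)))
      filter_upwards [h2] with Y hY _ y hy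
      have h3 := hY (equivShrink (t 0) ⟨y, hy⟩)
      rwa [Equiv.symm_apply_apply] at h3
    · exact Filter.Eventually.of_forall fun Y h => absurd h hc)
  filter_upwards [h1] with Y hY x hx hc
  exact hY (fun _ => x) (fun _ => hx) hc

end SF.H42
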